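import Pool.Agent.Run7.h424.M6.Tl
import Pool.Agent.Run7.h555.P15.M6

/-!
# The torsion subgroup and the two models: the statements S_TOR and S_ISO
-/

set_option autoImplicit false

open WeierstrassCurve

namespace Run7.h424.M6

open Run7.h555.P15 (WT coeffs EI S_TOR S_ISO)

lemma vrEI {n : ℕ} (hn : n % 4 = 3) : Pool.Agent.Y700.VR (Run7.h424.M6.EJ n) (EI n) 2 (-13 * n) 1 4 := by
  obtain ⟨c1, c2, c3⟩ := coeffs (D := -(n : ℤ)) (by omega)
  apply Run7.h424.M6.vr
  · simp [WeierstrassCurve.map, WT]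
  · have h : ((4 * ((5 * (-(n : ℤ)) - 1) / 4) : ℤ) : ℚ) = ((5 * (-(n : ℤ)) - 1 : ℤ) : ℚ) := by
      rw [c1]
    simp only [WeierstrassCurve.map, WT, eq_intCast]
    push_cast at h ⊢
    linear_combination h
  · simp [WeierstrassCurve.map, WT]
  · have h : ((2 * ((19 * (-(n : ℤ)) ^ 2 + 1) / 2) : ℤ) : ℚ) = ((19 * (-(n : ℤ)) ^ 2 + 1 : ℤ) : ℚ) := by
      rw [c2]
    simp only [WeierstrassCurve.map, WT, eq_intCast]
    push_cast at h ⊢
    linear_combination -h
  · have h : ((4 * ((39 * (-(n : ℤ)) ^ 3 + 1) / 4) : ℤ) : ℚ) = ((39 * (-(n : ℤ)) ^ 3 + 1 : ℤ) : ℚ) := by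
      rw [c3]
    simp only [WeierstrassCurve.map, WT, eq_intCast]
    push_cast at h ⊢
    linear_combination -h

/-- **the torsion subgroup** -/
theorem s_tor : S_TOR := by
  rintro n ⟨-, hn⟩
  have h4 : n % 4 = 3 := by omega
  have h := @Run7.h424.M6.torsW' n h4 _ (vrEI h4) (fun a b => Classical.propDecidable (a = b))
  exact h

/-- **the two models** -/
theorem s_iso : S_ISO := fun _ h4 => Run7.h424.M6.iso (by omega) (vrEI h4)

end Run7.h424.M6
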